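import Pool.Agent.P994e17.Final
import Pool.Agent.P994e17.PG

set_option autoImplicit false

/-!
# Planes of characteristic `p` whose order is 3 modulo 4

Let `Π` be a finite projective plane of order `n` in which every quadrangle generates a subplane
of order `p`, `p` a prime, these subplanes being isomorphic to `PG(2, p)` (which is no restriction
for `p = 3` and is not assumed there). If `n` is congruent to 3 modulo 4 then `n` is a power of `p`.
-/

namespace Pool.Agent.Results.MP_994e17_co.OrderThreeModFour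

open Configuration Configuration.ProjectivePlane
open scoped LinearAlgebra.Projectivization

/-- Four points, no three of them on a common line. -/
def Quadrangle {P : Type*} (L : Type*) [Membership P L] (a b c d : P) : Prop :=
  ∀ l : L, ¬ (a ∈ l ∧ b ∈ l ∧ c ∈ l) ∧ ¬ (a ∈ l ∧ b ∈ l ∧ d ∈ l) ∧
    ¬ (a ∈ l ∧ c ∈ l ∧ d ∈ l) ∧ ¬ (b ∈ l ∧ c ∈ l ∧ d ∈ l)

/-- A set `S` of points and a set `T` of lines which form a projective plane under the inherited
incidence. -/
structure IsSubplane {P L : Type*} [Membership P L] (S : Set P) (T : Set L) : Prop where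
  join : ∀ a ∈ S, ∀ b ∈ S, a ≠ b → ∃ l ∈ T, a ∈ l ∧ b ∈ l
  meet : ∀ l ∈ T, ∀ k ∈ T, l ≠ k → ∃ a ∈ S, a ∈ l ∧ a ∈ k
  quad : ∃ a ∈ S, ∃ b ∈ S, ∃ c ∈ S, ∃ d ∈ S, Quadrangle L a b c d

/-- `(S, T)` is the smallest subplane containing the four points `a, b, c, d`. -/
def IsGeneratedBy {P L : Type*} [Membership P L] (S : Set P) (T : Set L) (a b c d : P) : Prop :=
  IsSubplane S T ∧ (a ∈ S ∧ b ∈ S ∧ c ∈ S ∧ d ∈ S) ∧
    ∀ (S' : Set P) (T' : Set L), IsSubplane S' T' → a ∈ S' → b ∈ S' → c ∈ S' → d ∈ S' →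
      S ⊆ S' ∧ T ⊆ T'

/-- every line of the subplane `(S, T)` carries exactly `m + 1` of its points. -/
def HasOrder {P L : Type*} [Membership P L] (S : Set P) (T : Set L) (m : ℕ) : Prop :=
  ∀ l ∈ T, {x | x ∈ S ∧ x ∈ l}.ncard = m + 1

/-- the subplane `(S, T)` is isomorphic to `PG(2, p)`, whose points and lines are given by the
one-dimensional subspaces of `F_p ^ 3`, a point being on a line if they are orthogonal. -/
def IsPG {P L : Type*} [Membership P L] (S : Set P) (T : Set L) (p : ℕ) [Fact p.Prime] : Prop :=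
  ∃ (f : ℙ (ZMod p) (Fin 3 → ZMod p) → P) (g : ℙ (ZMod p) (Fin 3 → ZMod p) → L),
    Set.range f = S ∧ Set.range g = T ∧ ∀ u w, f u ∈ g w ↔ u.orthogonal w

/-- Let `p` be a prime and let `Π` be a finite projective plane in which every quadrangle
generates a subplane of order `p`, and suppose that `p = 3` or that these subplanes are isomorphic
to `PG(2, p)`. If the order of `Π` is congruent to 3 modulo 4, then it is a power of `p`. -/
theorem result (p : ℕ) [Fact p.Prime] {P L : Type*} [Membership P L] [ProjectivePlane P L]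
    [Finite P] [Finite L]
    (h : ∀ a b c d : P, Quadrangle L a b c d → ∃ (S : Set P) (T : Set L),
      IsGeneratedBy S T a b c d ∧ HasOrder S T p ∧ (p = 3 ∨ IsPG S T p))
    (hn : order P L % 4 = 3) : ∃ k : ℕ, order P L = p ^ k := by
  have hp : p.Prime := Fact.out
  have : Fintype P := Fintype.ofFinite P
  have : Fintype L := Fintype.ofFinite L
  by_cases h3 : p = 3
  · subst h3
    have h' : ∀ a b c d : P, P994e17.Quadrangle L a b c d → ∃ (S : Set P) (T : Set L),
        P994e17.IsGeneratedBy S T a b c d ∧ P994e17.HasOrder S T 3 := by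
      intro a b c d hq
      obtain ⟨S, T, ⟨hS, hm, hmin⟩, hO, -⟩ := h a b c d hq
      exact ⟨S, T, ⟨⟨hS.join, hS.meet, hS.quad⟩, hm,
        fun S' T' hS' => hmin S' T' ⟨hS'.join, hS'.meet, hS'.quad⟩⟩, hO⟩
    exact P994e17.pow_of_geo hp (by norm_num) (P994e17.geoE_three h') (P994e17.geoI_three h') hn
  · have h' : ∀ a b c d : P, P994e17.Quadrangle L a b c d → ∃ (S : Set P) (T : Set L),
        P994e17.IsGeneratedBy S T a b c d ∧ P994e17.IsPG S T p := by
      intro a b c d hq
      obtain ⟨S, T, ⟨hS, hm, hmin⟩, -, hO⟩ := h a b c d hq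
      exact ⟨S, T, ⟨⟨hS.join, hS.meet, hS.quad⟩, hm,
        fun S' T' hS' => hmin S' T' ⟨hS'.join, hS'.meet, hS'.quad⟩⟩, hO.resolve_left h3⟩
    have hE : P994e17.GeoE P L p := P994e17.geoE_pg p h'
    by_cases h2 : p = 2
    · exfalso
      have hd := P994e17.dvd_order_of_geoE hp hE
      rw [h2] at hd
      omega
    · exact P994e17.pow_of_geo hp h2 hE (P994e17.geoI_pg p h2 h') hn

end Pool.Agent.Results.MP_994e17_co.OrderThreeModFour
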