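import Mathlib

set_option autoImplicit false

namespace Pool.Agent.Results.MP_994e17_co.SubplaneOrders

open Configuration Configuration.ProjectivePlane

/-- Four points, no three of them on a common line. -/
def Quadrangle {P : Type*} (L : Type*) [Membership P L] (a b c d : P) : Prop :=
  ∀ l : L, ¬ (a ∈ l ∧ b ∈ l ∧ c ∈ l) ∧ ¬ (a ∈ l ∧ b ∈ l ∧ d ∈ l) ∧
    ¬ (a ∈ l ∧ c ∈ l ∧ d ∈ l) ∧ ¬ (b ∈ l ∧ c ∈ l ∧ d ∈ l)

/-- A set `S` of points and a set `T` of lines which form a projective plane under the inherited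
incidence. -/
structure IsSubplane {P L : Type*} [Membership P L] (S : Set P) (T : Set L) : Prop where
  join : ∀ a ∈ S, ∀ b ∈ S, a ≠ b → ∃ l ∈ T, a ∈ l ∧ b ∈ l
  meet : ∀ l ∈ T, ∀ k ∈ T, l ≠ k → ∃ a ∈ S, a ∈ l ∧ a ∈ k
  quad : ∃ a ∈ S, ∃ b ∈ S, ∃ c ∈ S, ∃ d ∈ S, Quadrangle L a b c d

/-- `(S, T)` is the smallest subplane containing the four points `a, b, c, d`. -/
def IsGeneratedBy {P L : Type*} [Membership P L] (S : Set P) (T : Set L) (a b c d : P) : Prop :=
  IsSubplane S T ∧ (a ∈ S ∧ b ∈ S ∧ c ∈ S ∧ d ∈ S) ∧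
    ∀ (S' : Set P) (T' : Set L), IsSubplane S' T' → a ∈ S' → b ∈ S' → c ∈ S' → d ∈ S' →
      S ⊆ S' ∧ T ⊆ T'

/-- every line of the subplane `(S, T)` carries exactly `m + 1` of its points. -/
def HasOrder {P L : Type*} [Membership P L] (S : Set P) (T : Set L) (m : ℕ) : Prop :=
  ∀ l ∈ T, {x | x ∈ S ∧ x ∈ l}.ncard = m + 1

section basic

variable {P L : Type*} [Membership P L]

theorem line_unique [Nondegenerate P L] {a b : P} {l k : L} (hab : a ≠ b) (h1 : a ∈ l)
    (h2 : b ∈ l) (h3 : a ∈ k) (h4 : b ∈ k) : l = k := by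
  rcases Nondegenerate.eq_or_eq h1 h2 h3 h4 with h | h
  · exact absurd h hab
  · exact h

theorem point_unique [Nondegenerate P L] {a b : P} {l k : L} (hlk : l ≠ k) (h1 : a ∈ l)
    (h2 : b ∈ l) (h3 : a ∈ k) (h4 : b ∈ k) : a = b := by
  rcases Nondegenerate.eq_or_eq h1 h2 h3 h4 with h | h
  · exact h
  · exact absurd h hlk

variable [ProjectivePlane P L]

theorem ne12 {a b c d : P} (h : Quadrangle L a b c d) : a ≠ b := by
  rintro rfl
  by_cases hc : a = c
  · subst hc
    obtain ⟨l, hl⟩ : ∃ l : L, a ∈ l := by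
      obtain ⟨p1, p2, p3, l1, l2, l3, h12, h13, h21, h22, h23, h31, h32, h33⟩ :=
        (ProjectivePlane.exists_config : ∃ (p₁ p₂ p₃ : P) (l₁ l₂ l₃ : L), _)
      by_cases ha : a = p1
      · exact ⟨HasLines.mkLine (L := L) (fun h : a = p2 => by
          rw [ha] at h; exact h12 (h ▸ h22)), (HasLines.mkLine_ax _).1⟩
      · exact ⟨HasLines.mkLine (L := L) ha, (HasLines.mkLine_ax _).1⟩
    exact (h l).1 ⟨hl, hl, hl⟩
  · have := HasLines.mkLine_ax (L := L) hc
    exact (h _).1 ⟨this.1, this.1, this.2⟩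

omit [ProjectivePlane P L] in
theorem quad_perm1 {a b c d : P} (h : Quadrangle L a b c d) : Quadrangle L b a c d := by
  intro l
  obtain ⟨h1, h2, h3, h4⟩ := h l
  refine ⟨fun H => h1 ⟨H.2.1, H.1, H.2.2⟩, fun H => h2 ⟨H.2.1, H.1, H.2.2⟩, h4, h3⟩

omit [ProjectivePlane P L] in
theorem quad_perm2 {a b c d : P} (h : Quadrangle L a b c d) : Quadrangle L b c d a := by
  intro l
  obtain ⟨h1, h2, h3, h4⟩ := h l
  refine ⟨h4, fun H => h1 ⟨H.2.2, H.1, H.2.1⟩, fun H => h2 ⟨H.2.2, H.1, H.2.1⟩,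
    fun H => h3 ⟨H.2.2, H.1, H.2.1⟩⟩

end basic

section count

variable {P L : Type*} [Membership P L] [ProjectivePlane P L] [Fintype P] [Fintype L]

open Classical in
/-- the finite set of points on a line -/
noncomputable def pts (P : Type*) {L : Type*} [Membership P L] [Fintype P] (l : L) : Finset P :=
  Finset.univ.filter (fun x : P => x ∈ l)

omit [ProjectivePlane P L] [Fintype L] in
theorem mem_pts {l : L} {x : P} : x ∈ pts P l ↔ x ∈ l := by
  simp [pts]

theorem card_pts (l : L) : (pts P l).card = order P L + 1 := by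
  classical
  rw [← pointCount_eq P l, pointCount, Nat.card_eq_fintype_card, pts, Fintype.card_subtype]

open Classical in
theorem card_off_line (l : L) :
    (Finset.univ.filter (fun x : P => x ∉ l)).card = order P L ^ 2 := by
  have h1 := card_pts (P := P) l
  have h2 := card_points P L
  have h3 : (Finset.univ.filter (fun x : P => x ∉ l)) = (pts P l)ᶜ := by
    ext x; simp [pts]
  rw [h3, Finset.card_compl, h1, h2]
  omega

open Classical in
theorem card_off_tri {a b c : P} {l1 l2 l3 : L} (a1 : a ∉ l1) (a2 : a ∈ l2) (a3 : a ∈ l3)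
    (b1 : b ∈ l1) (b2 : b ∉ l2) (b3 : b ∈ l3) (c1 : c ∈ l1) (c2 : c ∈ l2) (c3 : c ∉ l3) :
    (Finset.univ.filter (fun x : P => x ∉ l1 ∧ x ∉ l2 ∧ x ∉ l3)).card = (order P L - 1) ^ 2 := by
  have hn := one_lt_order P L
  have h2 := card_points P L
  have e1 := card_pts (P := P) l1
  have e2 := card_pts (P := P) l2
  have e3 := card_pts (P := P) l3
  have n12 : l1 ≠ l2 := fun h => a1 (h ▸ a2)
  have n13 : l1 ≠ l3 := fun h => a1 (h ▸ a3)
  have n23 : l2 ≠ l3 := fun h => b2 (h ▸ b3)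
  have i12 : pts P l1 ∩ pts P l2 = {c} := by
    ext x
    simp only [Finset.mem_inter, mem_pts, Finset.mem_singleton]
    constructor
    · rintro ⟨h, h'⟩
      exact point_unique n12 h c1 h' c2
    · rintro rfl
      exact ⟨c1, c2⟩
  have i3 : (pts P l1 ∪ pts P l2) ∩ pts P l3 = {b, a} := by
    ext x
    simp only [Finset.mem_inter, Finset.mem_union, mem_pts, Finset.mem_singleton,
      Finset.mem_insert]
    constructor
    · rintro ⟨h | h, h'⟩
      · exact Or.inl (point_unique n13 h b1 h' b3)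
      · exact Or.inr (point_unique n23 h a2 h' a3)
    · rintro (rfl | rfl)
      · exact ⟨Or.inl b1, b3⟩
      · exact ⟨Or.inr a2, a3⟩
  have u12 := Finset.card_union_add_card_inter (pts P l1) (pts P l2)
  have u3 := Finset.card_union_add_card_inter (pts P l1 ∪ pts P l2) (pts P l3)
  rw [i12, Finset.card_singleton] at u12
  have hba : b ≠ a := fun h => a1 (h ▸ b1)
  rw [i3, Finset.card_pair hba] at u3
  have h3 : (Finset.univ.filter (fun x : P => x ∉ l1 ∧ x ∉ l2 ∧ x ∉ l3)) =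
      (pts P l1 ∪ pts P l2 ∪ pts P l3)ᶜ := by
    ext x; simp [pts]
  rw [h3, Finset.card_compl, h2]
  obtain ⟨k, hk⟩ : ∃ k, order P L = k + 1 := ⟨order P L - 1, by omega⟩
  have h5 : (pts P l1 ∪ pts P l2 ∪ pts P l3).card = 3 * (k + 1) := by omega
  rw [h5, hk]
  have : (k + 1) ^ 2 + (k + 1) + 1 = 3 * (k + 1) + (k + 1 - 1) ^ 2 := by
    simp only [Nat.add_sub_cancel]; ring
  omega

open Classical in
/-- the number of ordered quadrangles with given first point -/
theorem card_quads_point (a : P) :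
    (Finset.univ.filter (fun x : P × P × P => Quadrangle L a x.1 x.2.1 x.2.2)).card =
      (order P L ^ 2 + order P L) * (order P L ^ 2 * (order P L - 1) ^ 2) := by
  have key : ∀ a b c : P, (∑ d : P, if Quadrangle L a b c d then 1 else 0) =
      if (a ≠ b ∧ ∀ l : L, ¬ (a ∈ l ∧ b ∈ l ∧ c ∈ l)) then (order P L - 1) ^ 2 else 0 := by
    intro a b c
    split_ifs with h
    · obtain ⟨hab, h⟩ := h
      have hac : a ≠ c := by
        rintro rfl
        exact h _ ⟨(HasLines.mkLine_ax (L := L) hab).1, (HasLines.mkLine_ax (L := L) hab).2,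
          (HasLines.mkLine_ax (L := L) hab).1⟩
      have hbc : b ≠ c := by
        rintro rfl
        exact h _ ⟨(HasLines.mkLine_ax (L := L) hab).1, (HasLines.mkLine_ax (L := L) hab).2,
          (HasLines.mkLine_ax (L := L) hab).2⟩
      obtain ⟨a3, b3⟩ := HasLines.mkLine_ax (L := L) hab
      obtain ⟨a2, c2⟩ := HasLines.mkLine_ax (L := L) hac
      obtain ⟨b1, c1⟩ := HasLines.mkLine_ax (L := L) hbc
      have := card_off_tri (L := L) (a := a) (b := b) (c := c)
        (l1 := HasLines.mkLine (L := L) hbc) (l2 := HasLines.mkLine (L := L) hac)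
        (l3 := HasLines.mkLine (L := L) hab) (fun h' => h _ ⟨h', b1, c1⟩) a2 a3 b1
        (fun h' => h _ ⟨a2, h', c2⟩) b3 c1 c2 (fun h' => h _ ⟨a3, b3, h'⟩)
      rw [← this, Finset.card_filter]
      apply Finset.sum_congr rfl
      intro d _
      congr 1
      apply propext
      constructor
      · intro hq
        exact ⟨fun hd => (hq _).2.2.2 ⟨b1, c1, hd⟩, fun hd => (hq _).2.2.1 ⟨a2, c2, hd⟩,
          fun hd => (hq _).2.1 ⟨a3, b3, hd⟩⟩
      · rintro ⟨d1, d2, d3⟩ l
        refine ⟨h l, ?_, ?_, ?_⟩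
        · rintro ⟨ha, hb, hd⟩
          exact d3 (line_unique hab ha hb a3 b3 ▸ hd)
        · rintro ⟨ha, hb, hd⟩
          exact d2 (line_unique hac ha hb a2 c2 ▸ hd)
        · rintro ⟨ha, hb, hd⟩
          exact d1 (line_unique hbc ha hb b1 c1 ▸ hd)
    · apply Finset.sum_eq_zero
      intro d _
      rw [if_neg]
      intro hq
      exact h ⟨ne12 hq, fun l => (hq l).1⟩
  have key2 : ∀ a b : P, (∑ c : P, if (a ≠ b ∧ ∀ l : L, ¬ (a ∈ l ∧ b ∈ l ∧ c ∈ l)) then
      (order P L - 1) ^ 2 else 0) =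
      if b ∈ Finset.univ.erase a then order P L ^ 2 * (order P L - 1) ^ 2 else 0 := by
    intro a b
    by_cases hab : a = b
    · subst hab
      simp
    · rw [if_pos (by simp; exact fun h => hab h.symm)]
      have := card_off_line (P := P) (HasLines.mkLine (L := L) hab)
      obtain ⟨a3, b3⟩ := HasLines.mkLine_ax (L := L) hab
      rw [← this, Finset.card_filter, Finset.sum_mul]
      apply Finset.sum_congr rfl
      intro c _
      by_cases hc : c ∈ HasLines.mkLine (L := L) hab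
      · rw [if_neg (fun h => h.2 _ ⟨a3, b3, hc⟩), if_neg (fun h => h hc)]
        simp
      · rw [if_pos ⟨hab, fun l h => hc (line_unique hab h.1 h.2.1 a3 b3 ▸ h.2.2)⟩, if_pos hc]
        simp
  rw [Finset.card_filter, Fintype.sum_prod_type]
  simp only [Fintype.sum_prod_type, key, key2]
  rw [Finset.sum_ite_mem, Finset.univ_inter, Finset.sum_const, Finset.card_erase_of_mem
    (Finset.mem_univ _), Finset.card_univ, card_points P L]
  simp

open Classical in
/-- the number of ordered quadrangles -/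
theorem card_quads :
    (Finset.univ.filter (fun x : P × P × P × P =>
      Quadrangle L x.1 x.2.1 x.2.2.1 x.2.2.2)).card =
      (order P L ^ 2 + order P L + 1) * ((order P L ^ 2 + order P L) *
        (order P L ^ 2 * (order P L - 1) ^ 2)) := by
  rw [Finset.card_filter, Fintype.sum_prod_type]
  have : ∀ a : P, (∑ y : P × P × P, if Quadrangle L a y.1 y.2.1 y.2.2 then 1 else 0) =
      (order P L ^ 2 + order P L) * (order P L ^ 2 * (order P L - 1) ^ 2) := by
    intro a
    rw [← Finset.card_filter, card_quads_point]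
  rw [Finset.sum_congr rfl (fun a _ => this a)]
  rw [Finset.sum_const, Finset.card_univ, card_points P L]
  simp

end count

section sub

variable {P L : Type*} [Membership P L]

/-- the type of the lines of `T`, with the inherited incidence for the points of `S` -/
structure SubLine (S : Set P) (T : Set L) : Type _ where
  val : L
  prop : val ∈ T

/-- inherited incidence -/
instance subMem (S : Set P) (T : Set L) : Membership S (SubLine S T) :=
  ⟨fun l x => (x : P) ∈ l.val⟩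

omit [Membership P L] in
theorem SubLine.ext {S : Set P} {T : Set L} {l k : SubLine S T} (h : l.val = k.val) : l = k := by
  cases l; cases k; cases h; rfl

variable [ProjectivePlane P L]

theorem join_mem {S : Set P} {T : Set L} (h : IsSubplane S T) {a b : P} {l : L} (ha : a ∈ S)
    (hb : b ∈ S) (hab : a ≠ b) (h1 : a ∈ l) (h2 : b ∈ l) : l ∈ T := by
  obtain ⟨k, hk, h3, h4⟩ := h.join a ha b hb hab
  rwa [line_unique hab h1 h2 h3 h4]

theorem meet_mem {S : Set P} {T : Set L} (h : IsSubplane S T) {a : P} {l k : L} (hl : l ∈ T)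
    (hk : k ∈ T) (hlk : l ≠ k) (h1 : a ∈ l) (h2 : a ∈ k) : a ∈ S := by
  obtain ⟨b, hb, h3, h4⟩ := h.meet l hl k hk hlk
  rwa [point_unique hlk h1 h3 h2 h4]

/-- a subplane as a projective plane -/
@[reducible] noncomputable def subPlane {S : Set P} {T : Set L} (h : IsSubplane S T) :
    ProjectivePlane S (SubLine S T) where
  exists_point := by
    rintro ⟨l, hl⟩
    obtain ⟨a, ha, b, hb, c, hc, d, hd, hq⟩ := h.quad
    by_cases h1 : a ∈ l
    · by_cases h2 : b ∈ l
      · exact ⟨⟨c, hc⟩, fun h3 => (hq l).1 ⟨h1, h2, h3⟩⟩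
      · exact ⟨⟨b, hb⟩, h2⟩
    · exact ⟨⟨a, ha⟩, h1⟩
  exists_line := by
    rintro ⟨x, hx⟩
    obtain ⟨a, ha, b, hb, c, hc, d, hd, hq⟩ := h.quad
    have hab : a ≠ b := ne12 hq
    have hcd : c ≠ d := ne12 (quad_perm2 (quad_perm2 hq))
    have hbc : b ≠ c := ne12 (quad_perm2 hq)
    obtain ⟨l, hl, l1, l2⟩ := h.join a ha b hb hab
    obtain ⟨k, hk, k1, k2⟩ := h.join c hc d hd hcd
    obtain ⟨r, hr, r1, r2⟩ := h.join b hb c hc hbc
    by_cases h1 : x ∈ l
    · by_cases h2 : x ∈ k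
      · refine ⟨⟨r, hr⟩, fun h3 : x ∈ r => ?_⟩
        have hlr : l ≠ r := fun e => (hq r).1 ⟨e ▸ l1, r1, r2⟩
        have hkr : k ≠ r := fun e => (hq r).2.2.2 ⟨r1, r2, e ▸ k2⟩
        have e1 : x = b := point_unique hlr h1 l2 h3 r1
        have e2 : x = c := point_unique hkr h2 k1 h3 r2
        exact hbc (e1.symm.trans e2)
      · exact ⟨⟨k, hk⟩, h2⟩
    · exact ⟨⟨l, hl⟩, h1⟩
  eq_or_eq := by
    rintro ⟨a, ha⟩ ⟨b, hb⟩ ⟨l, hl⟩ ⟨k, hk⟩ h1 h2 h3 h4
    rcases Nondegenerate.eq_or_eq (P := P) (L := L) h1 h2 h3 h4 with e | e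
    · exact Or.inl (Subtype.ext e)
    · exact Or.inr (SubLine.ext e)
  mkPoint := fun {l k} hlk =>
    ⟨(h.meet l.1 l.2 k.1 k.2 (fun e => hlk (SubLine.ext e))).choose,
      (h.meet l.1 l.2 k.1 k.2 (fun e => hlk (SubLine.ext e))).choose_spec.1⟩
  mkPoint_ax := fun {l k} hlk =>
    (h.meet l.1 l.2 k.1 k.2 (fun e => hlk (SubLine.ext e))).choose_spec.2
  mkLine := fun {a b} hab =>
    ⟨(h.join a a.2 b b.2 (fun e => hab (Subtype.ext e))).choose,
      (h.join a a.2 b b.2 (fun e => hab (Subtype.ext e))).choose_spec.1⟩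
  mkLine_ax := fun {a b} hab =>
    (h.join a a.2 b b.2 (fun e => hab (Subtype.ext e))).choose_spec.2
  exists_config := by
    obtain ⟨a, ha, b, hb, c, hc, d, hd, hq⟩ := h.quad
    have hab : a ≠ b := ne12 hq
    have hcd : c ≠ d := ne12 (quad_perm2 (quad_perm2 hq))
    have hbc : b ≠ c := ne12 (quad_perm2 hq)
    have hac : a ≠ c := by
      rintro rfl
      exact (hq _).1 ⟨(HasLines.mkLine_ax (L := L) hab).1, (HasLines.mkLine_ax (L := L) hab).2,
        (HasLines.mkLine_ax (L := L) hab).1⟩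
    obtain ⟨l, hl, l1, l2⟩ := h.join a ha b hb hab
    obtain ⟨k, hk, k1, k2⟩ := h.join a ha c hc hac
    obtain ⟨r, hr, r1, r2⟩ := h.join c hc d hd hcd
    refine ⟨⟨d, hd⟩, ⟨a, ha⟩, ⟨b, hb⟩, ⟨r, hr⟩, ⟨l, hl⟩, ⟨k, hk⟩, ?_, ?_, ?_, l1, k1, ?_, l2, ?_⟩
    · exact fun h' => (hq l).2.1 ⟨l1, l2, h'⟩
    · exact fun h' => (hq k).2.2.1 ⟨k1, k2, h'⟩
    · exact fun h' => (hq r).2.2.1 ⟨h', r1, r2⟩
    · exact fun h' => (hq r).2.2.2 ⟨h', r1, r2⟩
    · exact fun h' => (hq k).1 ⟨k1, h', k2⟩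

theorem sub_order [Finite P] [Finite L] {S : Set P} {T : Set L} (h : IsSubplane S T) {m : ℕ}
    (hm : HasOrder S T m) :
    @order S (SubLine S T) _ (subPlane h) = m := by
  let _ := subPlane h
  have hfin : Finite (SubLine S T) := by
    apply Finite.of_injective (fun l : SubLine S T => l.val)
    intro l k hlk
    exact SubLine.ext hlk
  obtain ⟨a, ha, b, hb, c, hc, d, hd, hq⟩ := h.quad
  obtain ⟨l, hl, l1, l2⟩ := h.join a ha b hb (ne12 hq)
  have h1 := pointCount_eq (P := S) (L := SubLine S T) ⟨l, hl⟩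
  have h2 : pointCount S (⟨l, hl⟩ : SubLine S T) = m + 1 := by
    rw [← hm l hl, pointCount, ← Nat.card_coe_set_eq]
    exact Nat.card_congr
      { toFun := fun p => ⟨p.1.1, p.1.2, p.2⟩
        invFun := fun p => ⟨⟨p.1, p.2.1⟩, p.2.2⟩
        left_inv := fun p => rfl
        right_inv := fun p => rfl }
  omega

omit [Membership P L] [ProjectivePlane P L] in
theorem finite_subLine [Finite L] (S : Set P) (T : Set L) : Finite (SubLine S T) := by
  apply Finite.of_injective (fun l : SubLine S T => l.val)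
  intro l k hlk
  exact SubLine.ext hlk

theorem card_sub [Finite P] [Finite L] {S : Set P} {T : Set L} (h : IsSubplane S T) {m : ℕ}
    (hm : HasOrder S T m) : S.ncard = m ^ 2 + m + 1 := by
  classical
  let _ := subPlane h
  have := finite_subLine S T
  have := Fintype.ofFinite P
  have h1 := card_points S (SubLine S T)
  rw [sub_order h hm] at h1
  rw [← h1, ← Nat.card_coe_set_eq, Nat.card_eq_fintype_card]

theorem quad_sub {S : Set P} {T : Set L} (h : IsSubplane S T) (a b c d : S) :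
    Quadrangle (SubLine S T) a b c d ↔ Quadrangle L (a : P) b c d := by
  let _ := subPlane h
  constructor
  · intro hq l
    have hab : (a : P) ≠ b := fun e => ne12 hq (Subtype.ext e)
    have hcd : (c : P) ≠ d := fun e => ne12 (quad_perm2 (quad_perm2 hq)) (Subtype.ext e)
    refine ⟨?_, ?_, ?_, ?_⟩
    · rintro ⟨h1, h2, h3⟩
      exact (hq ⟨l, join_mem h a.2 b.2 hab h1 h2⟩).1 ⟨h1, h2, h3⟩
    · rintro ⟨h1, h2, h3⟩
      exact (hq ⟨l, join_mem h a.2 b.2 hab h1 h2⟩).2.1 ⟨h1, h2, h3⟩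
    · rintro ⟨h1, h2, h3⟩
      exact (hq ⟨l, join_mem h c.2 d.2 hcd h2 h3⟩).2.2.1 ⟨h1, h2, h3⟩
    · rintro ⟨h1, h2, h3⟩
      exact (hq ⟨l, join_mem h c.2 d.2 hcd h2 h3⟩).2.2.2 ⟨h1, h2, h3⟩
  · intro hq l
    exact hq l.val

/-- the number of ordered quadrangles in a plane of order `m` -/
def nQuad (m : ℕ) : ℕ := (m ^ 2 + m + 1) * ((m ^ 2 + m) * (m ^ 2 * (m - 1) ^ 2))

open Classical in
theorem card_quad_sub [Fintype P] [Fintype L] {S : Set P} {T : Set L} (h : IsSubplane S T) {m : ℕ}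
    (hm : HasOrder S T m) :
    (Finset.univ.filter (fun x : P × P × P × P => Quadrangle L x.1 x.2.1 x.2.2.1 x.2.2.2 ∧
      x.1 ∈ S ∧ x.2.1 ∈ S ∧ x.2.2.1 ∈ S ∧ x.2.2.2 ∈ S)).card = nQuad m := by
  let _ := subPlane h
  have hf := finite_subLine S T
  have := Fintype.ofFinite (SubLine S T)
  have h1 := card_quads (P := S) (L := SubLine S T)
  rw [sub_order h hm] at h1
  rw [nQuad, ← h1]
  symm
  apply Finset.card_bij (fun (x : S × S × S × S) _ =>
    ((x.1 : P), (x.2.1 : P), (x.2.2.1 : P), (x.2.2.2 : P)))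
  · rintro ⟨a, b, c, d⟩ hx
    simp only [Finset.mem_filter, Finset.mem_univ, true_and] at hx ⊢
    exact ⟨(quad_sub h a b c d).1 hx, a.2, b.2, c.2, d.2⟩
  · rintro ⟨a, b, c, d⟩ _ ⟨a', b', c', d'⟩ _ he
    simp only [Prod.mk.injEq] at he
    obtain ⟨e1, e2, e3, e4⟩ := he
    simp only [Prod.mk.injEq]
    exact ⟨Subtype.ext e1, Subtype.ext e2, Subtype.ext e3, Subtype.ext e4⟩
  · rintro ⟨a, b, c, d⟩ hx
    simp only [Finset.mem_filter, Finset.mem_univ, true_and] at hx
    obtain ⟨hq, ha, hb, hc, hd⟩ := hx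
    refine ⟨(⟨a, ha⟩, ⟨b, hb⟩, ⟨c, hc⟩, ⟨d, hd⟩), ?_, rfl⟩
    simp only [Finset.mem_filter, Finset.mem_univ, true_and]
    exact (quad_sub h ⟨a, ha⟩ ⟨b, hb⟩ ⟨c, hc⟩ ⟨d, hd⟩).2 hq

open Classical in
theorem card_quad_sub_point [Fintype P] [Fintype L] {S : Set P} {T : Set L} (h : IsSubplane S T)
    {m : ℕ} (hm : HasOrder S T m) (a : P) (ha : a ∈ S) :
    (Finset.univ.filter (fun x : P × P × P => Quadrangle L a x.1 x.2.1 x.2.2 ∧
      x.1 ∈ S ∧ x.2.1 ∈ S ∧ x.2.2 ∈ S)).card = (m ^ 2 + m) * (m ^ 2 * (m - 1) ^ 2) := by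
  let _ := subPlane h
  have hf := finite_subLine S T
  have := Fintype.ofFinite (SubLine S T)
  have h1 := card_quads_point (P := S) (L := SubLine S T) ⟨a, ha⟩
  rw [sub_order h hm] at h1
  rw [← h1]
  symm
  apply Finset.card_bij (fun (x : S × S × S) _ => ((x.1 : P), (x.2.1 : P), (x.2.2 : P)))
  · rintro ⟨b, c, d⟩ hx
    simp only [Finset.mem_filter, Finset.mem_univ, true_and] at hx ⊢
    exact ⟨(quad_sub h ⟨a, ha⟩ b c d).1 hx, b.2, c.2, d.2⟩
  · rintro ⟨b, c, d⟩ _ ⟨b', c', d'⟩ _ he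
    simp only [Prod.mk.injEq] at he
    obtain ⟨e2, e3, e4⟩ := he
    simp only [Prod.mk.injEq]
    exact ⟨Subtype.ext e2, Subtype.ext e3, Subtype.ext e4⟩
  · rintro ⟨b, c, d⟩ hx
    simp only [Finset.mem_filter, Finset.mem_univ, true_and] at hx
    obtain ⟨hq, hb, hc, hd⟩ := hx
    refine ⟨(⟨b, hb⟩, ⟨c, hc⟩, ⟨d, hd⟩), ?_, rfl⟩
    simp only [Finset.mem_filter, Finset.mem_univ, true_and]
    exact (quad_sub h ⟨a, ha⟩ ⟨b, hb⟩ ⟨c, hc⟩ ⟨d, hd⟩).2 hq

end sub

section main

variable {P L : Type*} [Membership P L] [ProjectivePlane P L] [Fintype P] [Fintype L]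

theorem dvd_of_fibers {α β : Type*} [DecidableEq β] (A : Finset α) (g : α → β) (k : ℕ)
    (h : ∀ x ∈ A, (A.filter (fun y => g y = g x)).card = k) : k ∣ A.card := by
  rw [Finset.card_eq_sum_card_image g A]
  apply Finset.dvd_sum
  intro b hb
  obtain ⟨x, hx, rfl⟩ := Finset.mem_image.mp hb
  rw [h x hx]

/-- All the data chosen from the hypothesis. -/
structure Gen (P L : Type*) [Membership P L] (m : ℕ) where
  S : P → P → P → P → Set P
  T : P → P → P → P → Set L
  gen : ∀ a b c d : P, Quadrangle L a b c d → IsGeneratedBy (S a b c d) (T a b c d) a b c d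
  ord : ∀ a b c d : P, Quadrangle L a b c d → HasOrder (S a b c d) (T a b c d) m

theorem Gen.uniq {m : ℕ} (G : Gen P L m) {a b c d a' b' c' d' : P} (h : Quadrangle L a b c d)
    (h' : Quadrangle L a' b' c' d') (ha : a' ∈ G.S a b c d) (hb : b' ∈ G.S a b c d)
    (hc : c' ∈ G.S a b c d) (hd : d' ∈ G.S a b c d) : G.S a' b' c' d' = G.S a b c d := by
  have h1 := (G.gen a' b' c' d' h').2.2 _ _ (G.gen a b c d h).1 ha hb hc hd
  apply Set.eq_of_subset_of_ncard_le h1.1
  rw [card_sub (G.gen a b c d h).1 (G.ord a b c d h),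
    card_sub (G.gen a' b' c' d' h').1 (G.ord a' b' c' d' h')]

open Classical in
theorem Gen.dvd_quads {m : ℕ} (G : Gen P L m) : nQuad m ∣ nQuad (order P L) := by
  have h1 := card_quads (P := P) (L := L)
  rw [nQuad, nQuad, ← h1]
  apply dvd_of_fibers _ (fun x : P × P × P × P => G.S x.1 x.2.1 x.2.2.1 x.2.2.2)
  rintro ⟨a, b, c, d⟩ hx
  simp only [Finset.mem_filter, Finset.mem_univ, true_and] at hx
  have h2 := card_quad_sub (G.gen a b c d hx).1 (G.ord a b c d hx)
  rw [nQuad] at h2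
  rw [← h2]
  congr 1
  ext ⟨a', b', c', d'⟩
  simp only [Finset.mem_filter, Finset.mem_univ, true_and]
  constructor
  · rintro ⟨h3, h4⟩
    have := (G.gen a' b' c' d' h3).2.1
    rw [h4] at this
    exact ⟨h3, this⟩
  · rintro ⟨h3, h4, h5, h6, h7⟩
    exact ⟨h3, G.uniq hx h3 h4 h5 h6 h7⟩

omit [Fintype P] [Fintype L] in
theorem exists_setup {a b c d : P} (hq : Quadrangle L a b c d) :
    ∃ (s : P) (l e k : L), a ∉ l ∧ b ∉ l ∧ a ∈ e ∧ b ∈ e ∧ s ∈ e ∧ s ∈ l ∧ s ∈ k ∧ a ∉ k ∧ b ∉ k ∧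
      k ≠ l := by
  have hab : a ≠ b := ne12 hq
  have hbc : b ≠ c := ne12 (quad_perm2 hq)
  have hcd : c ≠ d := ne12 (quad_perm2 (quad_perm2 hq))
  have hac : a ≠ c := by
    rintro rfl
    exact (hq _).1 ⟨(HasLines.mkLine_ax (L := L) hab).1, (HasLines.mkLine_ax (L := L) hab).2,
      (HasLines.mkLine_ax (L := L) hab).1⟩
  have hbd : b ≠ d := by
    rintro rfl
    exact (hq _).2.1 ⟨(HasLines.mkLine_ax (L := L) hab).1, (HasLines.mkLine_ax (L := L) hab).2,
      (HasLines.mkLine_ax (L := L) hab).2⟩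
  obtain ⟨e, ae, be⟩ : ∃ e : L, a ∈ e ∧ b ∈ e := ⟨_, HasLines.mkLine_ax (L := L) hab⟩
  obtain ⟨l, cl, dl⟩ : ∃ e : L, c ∈ e ∧ d ∈ e := ⟨_, HasLines.mkLine_ax (L := L) hcd⟩
  obtain ⟨u, au, cu⟩ : ∃ e : L, a ∈ e ∧ c ∈ e := ⟨_, HasLines.mkLine_ax (L := L) hac⟩
  obtain ⟨v, bv, dv⟩ : ∃ e : L, b ∈ e ∧ d ∈ e := ⟨_, HasLines.mkLine_ax (L := L) hbd⟩
  have al : a ∉ l := fun h => (hq l).2.2.1 ⟨h, cl, dl⟩
  have bl : b ∉ l := fun h => (hq l).2.2.2 ⟨h, cl, dl⟩
  have hel : e ≠ l := fun h => al (h ▸ ae)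
  have huv : u ≠ v := fun h => (hq v).1 ⟨h ▸ au, bv, h ▸ cu⟩
  have heu : e ≠ u := fun h => (hq u).1 ⟨au, h ▸ be, cu⟩
  have hlu : l ≠ u := fun h => (hq u).2.2.1 ⟨au, cu, h ▸ dl⟩
  obtain ⟨s, se, sl⟩ : ∃ s : P, s ∈ e ∧ s ∈ l := ⟨_, HasPoints.mkPoint_ax (P := P) hel⟩
  obtain ⟨r, ru, rv⟩ : ∃ s : P, s ∈ u ∧ s ∈ v := ⟨_, HasPoints.mkPoint_ax (P := P) huv⟩
  have re : r ∉ e := by
    intro h
    have : r = a := point_unique heu h ae ru au
    subst this
    exact (hq v).2.1 ⟨rv, bv, dv⟩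
  have rl : r ∉ l := by
    intro h
    have : r = c := point_unique hlu h cl ru cu
    subst this
    exact (hq v).2.2.2 ⟨bv, rv, dv⟩
  have hsr : s ≠ r := fun h => re (h ▸ se)
  obtain ⟨k, sk, rk⟩ : ∃ e : L, s ∈ e ∧ r ∈ e := ⟨_, HasLines.mkLine_ax (L := L) hsr⟩
  refine ⟨s, l, e, k, al, bl, ae, be, se, sl, sk, ?_, ?_, ?_⟩
  · intro h
    have has : a ≠ s := fun h => al (h ▸ sl)
    have : k = e := line_unique has h sk ae se
    exact re (this ▸ rk)
  · intro h
    have has : b ≠ s := fun h => bl (h ▸ sl)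
    have : k = e := line_unique has h sk be se
    exact re (this ▸ rk)
  · intro h
    exact rl (h ▸ rk)

omit [Fintype P] [Fintype L] in
/-- a point `x ≠ s` of `l` and two further points -/
theorem quad_of_line {a b x y s : P} {l e : L} (hab : a ≠ b) (al : a ∉ l) (bl : b ∉ l) (ae : a ∈ e)
    (be : b ∈ e) (se : s ∈ e) (sl : s ∈ l) (xl : x ∈ l) (yl : y ∈ l) (xs : x ≠ s) (ys : y ≠ s)
    (xy : x ≠ y) : Quadrangle L a b x y := by
  have hel : e ≠ l := fun h => al (h ▸ ae)
  intro w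
  refine ⟨?_, ?_, ?_, ?_⟩
  · rintro ⟨h1, h2, h3⟩
    have : w = e := line_unique hab h1 h2 ae be
    subst this
    exact xs (point_unique hel h3 se xl sl)
  · rintro ⟨h1, h2, h3⟩
    have : w = e := line_unique hab h1 h2 ae be
    subst this
    exact ys (point_unique hel h3 se yl sl)
  · rintro ⟨h1, h2, h3⟩
    have : w = l := line_unique xy h2 h3 xl yl
    exact al (this ▸ h1)
  · rintro ⟨h1, h2, h3⟩
    have : w = l := line_unique xy h2 h3 xl yl
    exact bl (this ▸ h1)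

omit [Fintype P] [Fintype L] in
theorem exists_image {a b x s : P} {l e k : L} (hab : a ≠ b) (al : a ∉ l) (bl : b ∉ l)
    (ae : a ∈ e) (be : b ∈ e) (se : s ∈ e) (sl : s ∈ l) (sk : s ∈ k) (ak : a ∉ k) (bk : b ∉ k)
    (hkl : k ≠ l) (xl : x ∈ l) (xs : x ≠ s) :
    ∃ y : P, y ∈ l ∧ y ≠ s ∧ Quadrangle L a b x y ∧
      (∀ (S : Set P) (T : Set L), IsSubplane S T → a ∈ S → b ∈ S → l ∈ T → k ∈ T → x ∈ S → y ∈ S) ∧
      (∀ (S : Set P) (T : Set L), IsSubplane S T → a ∈ S → b ∈ S → x ∈ S → y ∈ S →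
        (l ∈ T ∧ k ∈ T ∧ s ∈ S)) := by
  have hax : a ≠ x := fun h => al (h ▸ xl)
  have hbs : b ≠ s := fun h => bl (h ▸ sl)
  have has : a ≠ s := fun h => al (h ▸ sl)
  have hel : e ≠ l := fun h => al (h ▸ ae)
  obtain ⟨u, au, xu⟩ : ∃ e : L, a ∈ e ∧ x ∈ e := ⟨_, HasLines.mkLine_ax (L := L) hax⟩
  have huk : u ≠ k := fun h => ak (h ▸ au)
  obtain ⟨z, zu, zk⟩ : ∃ s : P, s ∈ u ∧ s ∈ k := ⟨_, HasPoints.mkPoint_ax (P := P) huk⟩
  have hbz : b ≠ z := fun h => bk (h ▸ zk)
  obtain ⟨v, bv, zv⟩ : ∃ e : L, b ∈ e ∧ z ∈ e := ⟨_, HasLines.mkLine_ax (L := L) hbz⟩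
  have hvl : v ≠ l := fun h => bl (h ▸ bv)
  obtain ⟨y, yv, yl⟩ : ∃ s : P, s ∈ v ∧ s ∈ l := ⟨_, HasPoints.mkPoint_ax (P := P) hvl⟩
  have hzs : z ≠ s := by
    intro h
    subst h
    have : u = e := line_unique has au zu ae se
    subst this
    exact xs (point_unique hel xu se xl sl)
  have hzx : z ≠ x := by
    intro h
    subst h
    exact xs (point_unique hkl zk sk xl sl)
  have hke : k ≠ e := fun h => ak (h ▸ ae)
  have ys : y ≠ s := by
    intro h
    subst h
    have : v = e := line_unique hbs bv yv be se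
    subst this
    exact hzs (point_unique hke zk sk zv se)
  have xy : x ≠ y := by
    intro h
    subst h
    have huv : u = v := line_unique hzx zu xu zv yv
    have : u = e := line_unique hab au (huv ▸ bv) ae be
    subst this
    exact xs (point_unique hel xu se xl sl)
  have huv : u ≠ v := by
    intro huv
    have : u = e := line_unique hab au (huv ▸ bv) ae be
    subst this
    exact xs (point_unique hel xu se xl sl)
  have hul : u ≠ l := fun h => al (h ▸ au)
  refine ⟨y, yl, ys, quad_of_line hab al bl ae be se sl xl yl xs ys xy, ?_, ?_⟩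
  · intro S T h ha hb hl hk hx
    have hu : u ∈ T := join_mem h ha hx hax au xu
    have hz : z ∈ S := meet_mem h hu hk huk zu zk
    have hv : v ∈ T := join_mem h hb hz hbz bv zv
    exact meet_mem h hv hl hvl yv yl
  · intro S T h ha hb hx hy
    have hby : b ≠ y := fun h => bl (h ▸ yl)
    have hl : l ∈ T := join_mem h hx hy xy xl yl
    have he : e ∈ T := join_mem h ha hb hab ae be
    have hs : s ∈ S := meet_mem h he hl hel se sl
    have hu : u ∈ T := join_mem h ha hx hax au xu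
    have hv : v ∈ T := join_mem h hb hy hby bv yv
    have hz : z ∈ S := meet_mem h hu hv huv zu zv
    exact ⟨hl, join_mem h hz hs hzs zk sk, hs⟩

open Classical in
theorem Gen.dvd_quads_point {m : ℕ} (G : Gen P L m) (a : P) :
    (m ^ 2 + m) * (m ^ 2 * (m - 1) ^ 2) ∣
      (order P L ^ 2 + order P L) * (order P L ^ 2 * (order P L - 1) ^ 2) := by
  have h1 := card_quads_point (P := P) (L := L) a
  rw [← h1]
  apply dvd_of_fibers _ (fun x : P × P × P => G.S a x.1 x.2.1 x.2.2)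
  rintro ⟨b, c, d⟩ hx
  simp only [Finset.mem_filter, Finset.mem_univ, true_and] at hx
  have h2 := card_quad_sub_point (G.gen a b c d hx).1 (G.ord a b c d hx) a (G.gen a b c d hx).2.1.1
  rw [← h2]
  congr 1
  ext ⟨b', c', d'⟩
  simp only [Finset.mem_filter, Finset.mem_univ, true_and]
  constructor
  · rintro ⟨h3, h4⟩
    have := (G.gen a b' c' d' h3).2.1
    rw [h4] at this
    exact ⟨h3, this.2⟩
  · rintro ⟨h3, h5, h6, h7⟩
    exact ⟨h3, G.uniq hx h3 (G.gen a b c d hx).2.1.1 h5 h6 h7⟩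

theorem card_erase_pts {l : L} {s : P} (hs : s ∈ l) :
    by classical exact ((pts P l).erase s).card = order P L := by
  classical
  have := card_pts (P := P) l
  rw [Finset.card_erase_of_mem (mem_pts.2 hs), this]
  simp

theorem Gen.dvd_line {m : ℕ} (G : Gen P L m) {a b s : P} {l e k : L} (hab : a ≠ b) (al : a ∉ l)
    (bl : b ∉ l) (ae : a ∈ e) (be : b ∈ e) (se : s ∈ e) (sl : s ∈ l) (sk : s ∈ k) (ak : a ∉ k)
    (bk : b ∉ k) (hkl : k ≠ l) : m ∣ order P L := by
  classical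
  have H : ∀ x : P, x ∈ l → x ≠ s → ∃ y : P, y ∈ l ∧ y ≠ s ∧ Quadrangle L a b x y ∧
      (∀ (S : Set P) (T : Set L), IsSubplane S T → a ∈ S → b ∈ S → l ∈ T → k ∈ T → x ∈ S → y ∈ S) ∧
      (∀ (S : Set P) (T : Set L), IsSubplane S T → a ∈ S → b ∈ S → x ∈ S → y ∈ S →
        (l ∈ T ∧ k ∈ T ∧ s ∈ S)) := fun x xl xs =>
    exists_image hab al bl ae be se sl sk ak bk hkl xl xs
  choose! f f1 f2 f3 f4 f5 using H
  have hA := card_erase_pts (P := P) sl
  rw [← hA]
  apply dvd_of_fibers _ (fun x : P => G.S a b x (f x))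
  intro x hx
  rw [Finset.mem_erase, mem_pts] at hx
  obtain ⟨xs, xl⟩ := hx
  have hq := f3 x xl xs
  obtain ⟨hsub, ⟨ha, hb, hx, hfx⟩, -⟩ := G.gen a b x (f x) hq
  obtain ⟨hl, hk, hs⟩ := f5 x xl xs _ _ hsub ha hb hx hfx
  have hcard := G.ord a b x (f x) hq l hl
  have e1 : (((pts P l).erase s).filter (fun y => G.S a b y (f y) = G.S a b x (f x))) =
      ({y | y ∈ G.S a b x (f x) ∧ y ∈ l} : Set P).toFinset.erase s := by
    ext y
    simp only [Finset.mem_filter, Finset.mem_erase, mem_pts, Set.mem_toFinset, Set.mem_ofPred_eq]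
    constructor
    · rintro ⟨⟨ys, yl⟩, hy⟩
      have := (G.gen a b y (f y) (f3 y yl ys)).2.1.2.2.1
      rw [hy] at this
      exact ⟨ys, this, yl⟩
    · rintro ⟨ys, hy, yl⟩
      refine ⟨⟨ys, yl⟩, ?_⟩
      exact G.uniq hq (f3 y yl ys) ha hb hy (f4 y yl ys _ _ hsub ha hb hl hk hy)
  rw [e1, Finset.card_erase_of_mem, ← Set.ncard_eq_toFinset_card', hcard]
  · simp
  · simpa using ⟨hs, sl⟩

theorem Gen.dvd_line2 {m : ℕ} (G : Gen P L m) {a b s x : P} {l e : L} (hab : a ≠ b) (al : a ∉ l)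
    (bl : b ∉ l) (ae : a ∈ e) (be : b ∈ e) (se : s ∈ e) (sl : s ∈ l) (xl : x ∈ l)
    (xs : x ≠ s) : (m - 1) ∣ (order P L - 1) := by
  classical
  have hA := card_erase_pts (P := P) sl
  have hA2 : (((pts P l).erase s).erase x).card = order P L - 1 := by
    rw [Finset.card_erase_of_mem, hA]
    rw [Finset.mem_erase, mem_pts]
    exact ⟨xs, xl⟩
  rw [← hA2]
  have hel : e ≠ l := fun h => al (h ▸ ae)
  apply dvd_of_fibers _ (fun y : P => G.S a b x y)
  intro y hy
  simp only [Finset.mem_erase, mem_pts] at hy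
  obtain ⟨yx, ys, yl⟩ := hy
  have hq : Quadrangle L a b x y :=
    quad_of_line hab al bl ae be se sl xl yl xs ys (Ne.symm yx)
  obtain ⟨hsub, ⟨ha, hb, hx, hy⟩, -⟩ := G.gen a b x y hq
  have hl : l ∈ G.T a b x y := join_mem hsub hx hy (Ne.symm yx) xl yl
  have he : e ∈ G.T a b x y := join_mem hsub ha hb hab ae be
  have hs : s ∈ G.S a b x y := meet_mem hsub he hl hel se sl
  have hcard := G.ord a b x y hq l hl
  have e1 : (((pts P l).erase s).erase x).filter (fun z => G.S a b x z = G.S a b x y) =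
      ((({z | z ∈ G.S a b x y ∧ z ∈ l} : Set P).toFinset.erase s).erase x) := by
    ext z
    simp only [Finset.mem_filter, Finset.mem_erase, mem_pts, Set.mem_toFinset, Set.mem_ofPred_eq]
    constructor
    · rintro ⟨⟨zx, zs, zl⟩, hz⟩
      have hq' : Quadrangle L a b x z :=
        quad_of_line hab al bl ae be se sl xl zl xs zs (Ne.symm zx)
      have := (G.gen a b x z hq').2.1.2.2.2
      rw [hz] at this
      exact ⟨zx, zs, this, zl⟩
    · rintro ⟨zx, zs, hz, zl⟩
      refine ⟨⟨zx, zs, zl⟩, ?_⟩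
      exact G.uniq hq (quad_of_line hab al bl ae be se sl xl zl xs zs (Ne.symm zx)) ha hb hx hz
  rw [e1, Finset.card_erase_of_mem, Finset.card_erase_of_mem, ← Set.ncard_eq_toFinset_card',
    hcard]
  · simp
  · simpa using ⟨hs, sl⟩
  · simpa using ⟨xs, hx, xl⟩

omit [Fintype P] [Fintype L] in
theorem one_lt_of_hasOrder {S : Set P} {T : Set L} (h : IsSubplane S T) {m : ℕ} [Finite P]
    [Finite L] (hm : HasOrder S T m) : 2 ≤ m := by
  let _ := subPlane h
  have := finite_subLine S T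
  have h1 := one_lt_order S (SubLine S T)
  rw [sub_order h hm] at h1
  exact h1

end main

section arith

theorem nt_int {m n t q : ℤ} (hm : 2 ≤ m) (hq : Prime q) (hqm : q ∣ m ^ 2 + m + 1) (h4 : 4 * m ≤ q)
    (hn : n = m + m * (m - 1) * t) (ht2 : 2 ≤ t) (htm : t ≤ m)
    (hd : q ∣ (n ^ 2 + n + 1) * (n + 1) * n ^ 3 * (n - 1) ^ 2) : 3 * t = m + 2 := by
  have small : ∀ x : ℤ, 0 < x → x < q → ¬ q ∣ x := by
    intro x h0 h1 h2
    exact absurd (Int.le_of_dvd h0 h2) (by omega)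
  rcases hq.dvd_or_dvd hd with hd | hd
  · rcases hq.dvd_or_dvd hd with hd | hd
    · rcases hq.dvd_or_dvd hd with hd | hd
      · exfalso
        have h1 : q ∣ (n - m) * (n + m + 1) := by
          have : (n - m) * (n + m + 1) = (n ^ 2 + n + 1) - (m ^ 2 + m + 1) := by ring
          rw [this]
          exact dvd_sub hd hqm
        rcases hq.dvd_or_dvd h1 with h1 | h1
        · have : n - m = m * (m - 1) * t := by rw [hn]; ring
          rw [this] at h1
          rcases hq.dvd_or_dvd h1 with h1 | h1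
          · rcases hq.dvd_or_dvd h1 with h1 | h1
            · exact small m (by omega) (by omega) h1
            · exact small (m - 1) (by omega) (by omega) h1
          · exact small t (by omega) (by omega) h1
        · have h2 : q ∣ (2 * m + 1) * (t - 1) := by
            have : (2 * m + 1) * (t - 1) = (m ^ 2 + m + 1) * t - (n + m + 1) := by
              rw [hn]; ring
            rw [this]
            exact dvd_sub (hqm.mul_right _) h1
          rcases hq.dvd_or_dvd h2 with h2 | h2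
          · exact small (2 * m + 1) (by omega) (by omega) h2
          · exact small (t - 1) (by omega) (by omega) h2
      · exfalso
        have h1 : q ∣ 3 * t + m - 1 := by
          have : 3 * t + m - 1 = (2 * m + 1) * (n + 1) -
              (m ^ 2 + m + 1) * (2 + (2 * m - 3) * t) := by
            rw [hn]; ring
          rw [this]
          exact dvd_sub (hd.mul_left _) (hqm.mul_right _)
        exact small _ (by omega) (by omega) h1
    · have hd := hq.dvd_of_dvd_pow hd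
      have : n = m * (1 + (m - 1) * t) := by rw [hn]; ring
      rw [this] at hd
      rcases hq.dvd_or_dvd hd with h1 | h1
      · exact absurd h1 (small m (by omega) (by omega))
      · have h2 : q ∣ m + 2 - 3 * t := by
          have : m + 2 - 3 * t = (m + 2) * (1 + (m - 1) * t) - (m ^ 2 + m + 1) * t := by ring
          rw [this]
          exact dvd_sub (h1.mul_left _) (hqm.mul_right _)
        by_contra hne
        rcases lt_or_gt_of_ne hne with h3 | h3
        · exact small _ (by omega) (by omega) h2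
        · have h4 : q ∣ 3 * t - (m + 2) := by
            have := (dvd_neg.mpr h2)
            rwa [neg_sub] at this
          exact small _ (by omega) (by omega) h4
  · exfalso
    have hd := hq.dvd_of_dvd_pow hd
    have : n - 1 = (m - 1) * (1 + m * t) := by rw [hn]; ring
    rw [this] at hd
    rcases hq.dvd_or_dvd hd with h1 | h1
    · exact small (m - 1) (by omega) (by omega) h1
    · have h2 : q ∣ m + 1 - t := by
        have : m + 1 - t = (m + 1) * (1 + m * t) - (m ^ 2 + m + 1) * t := by ring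
        rw [this]
        exact dvd_sub (h1.mul_left _) (hqm.mul_right _)
      exact small _ (by omega) (by omega) h2

theorem nt_main {m n q : ℕ} (hm : 2 ≤ m) (hn : 2 ≤ n) (h1 : m ∣ n) (h2 : (m - 1) ∣ (n - 1))
    (h3 : (m ^ 2 + m + 1) * ((m + 1) * m ^ 3 * (m - 1) ^ 2) ∣
      (n ^ 2 + n + 1) * ((n + 1) * n ^ 3 * (n - 1) ^ 2))
    (hq : q.Prime) (hqm : q ∣ m ^ 2 + m + 1) (h4 : 4 * m ≤ q) :
    n = m ∨ n = m ^ 2 ∨ 3 * (n - m) = m * (m - 1) * (m + 2) ∨ m ^ 3 ≤ n := by
  have hmn : m ≤ n := Nat.le_of_dvd (by omega) h1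
  have h5 : m * (m - 1) ∣ n - m := by
    apply Nat.Coprime.mul_dvd_of_dvd_of_dvd
    · have : Nat.Coprime (m - 1 + 1) (m - 1) := by simp
      rwa [Nat.sub_add_cancel (by omega : 1 ≤ m)] at this
    · exact Nat.dvd_sub h1 dvd_rfl
    · have := Nat.dvd_sub h2 (dvd_refl (m - 1))
      have e : n - 1 - (m - 1) = n - m := by omega
      rwa [e] at this
  obtain ⟨t, ht⟩ := h5
  have hnt : n = m + m * (m - 1) * t := by omega
  by_cases t0 : t = 0
  · left; rw [hnt, t0]; simp
  by_cases t1 : t = 1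
  · right; left
    rw [hnt, t1]
    obtain ⟨k, rfl⟩ : ∃ k, m = k + 1 := ⟨m - 1, by omega⟩
    simp only [Nat.add_sub_cancel]
    ring
  by_cases tm : t ≤ m
  · right; right; left
    have hZ : (q : ℤ) ∣ ((n : ℤ) ^ 2 + n + 1) * (n + 1) * n ^ 3 * (n - 1) ^ 2 := by
      have h6 : q ∣ (n ^ 2 + n + 1) * ((n + 1) * n ^ 3 * (n - 1) ^ 2) :=
        (hqm.mul_right _).trans h3
      have h7 := Int.natCast_dvd_natCast.mpr h6
      push_cast [Nat.cast_sub (by omega : 1 ≤ n)] at h7
      have e : ((n : ℤ) ^ 2 + n + 1) * (n + 1) * n ^ 3 * (n - 1) ^ 2 =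
        ((n : ℤ) ^ 2 + n + 1) * ((n + 1) * n ^ 3 * (n - 1) ^ 2) := by ring
      rw [e]
      exact h7
    have h8 := nt_int (m := m) (n := n) (t := t) (q := q) (by exact_mod_cast hm)
      (Nat.prime_iff_prime_int.mp hq) (by exact_mod_cast hqm) (by exact_mod_cast h4)
      (by rw [hnt]; push_cast [Nat.cast_sub (by omega : 1 ≤ m)]; ring) (by omega)
      (by exact_mod_cast tm) hZ
    have h9 : 3 * t = m + 2 := by exact_mod_cast h8
    rw [ht, ← h9]; ring
  · right; right; right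
    have : m + 1 ≤ t := by omega
    calc m ^ 3 = m + m * (m - 1) * (m + 1) := by
          obtain ⟨k, rfl⟩ : ∃ k, m = k + 1 := ⟨m - 1, by omega⟩
          simp only [Nat.add_sub_cancel]
          ring
      _ ≤ m + m * (m - 1) * t := by gcongr
      _ = n := hnt.symm

end arith

/-- **Orders of finite projective planes in which every quadrangle generates a subplane of
order `m`.** With `n` the order of the plane: `m ∣ n`, `m - 1 ∣ n - 1`, and the numbers of
subplanes (in the whole plane and through a given point) are integers; consequently, if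
`m ^ 2 + m + 1` has a prime factor `q ≥ 4 m`, then `n = m`, `n = m ^ 2` or `n ≥ m ^ 3`, or
`q ≠ m ^ 2 + m + 1` and `n = m + m (m - 1) (m + 2) / 3`. -/
theorem result {P L : Type*} [Membership P L] [ProjectivePlane P L] [Finite P] [Finite L] (m : ℕ)
    (h : ∀ a b c d : P, Quadrangle L a b c d →
      ∃ (S : Set P) (T : Set L), IsGeneratedBy S T a b c d ∧ HasOrder S T m) :
    m ∣ order P L ∧
    (m - 1) ∣ (order P L - 1) ∧
    (m + 1) * m ^ 3 * (m - 1) ^ 2 ∣ (order P L + 1) * order P L ^ 3 * (order P L - 1) ^ 2 ∧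
    (m ^ 2 + m + 1) * ((m + 1) * m ^ 3 * (m - 1) ^ 2) ∣
      (order P L ^ 2 + order P L + 1) *
        ((order P L + 1) * order P L ^ 3 * (order P L - 1) ^ 2) ∧
    ∀ q : ℕ, q.Prime → q ∣ m ^ 2 + m + 1 → 4 * m ≤ q →
      order P L = m ∨ order P L = m ^ 2 ∨ m ^ 3 ≤ order P L ∨
        (q ≠ m ^ 2 + m + 1 ∧ 3 * (order P L - m) = m * (m - 1) * (m + 2)) := by
  classical
  have := Fintype.ofFinite P
  have := Fintype.ofFinite L
  have hn := one_lt_order P L
  choose! S T hST using h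
  let G : Gen P L m :=
    { S := S, T := T, gen := fun a b c d hq => (hST a b c d hq).1,
      ord := fun a b c d hq => (hST a b c d hq).2 }
  obtain ⟨a, b, c, d, hq⟩ : ∃ a b c d : P, Quadrangle L a b c d := by
    have h1 := card_quads (P := P) (L := L)
    have h2 : 0 < (order P L ^ 2 + order P L + 1) * ((order P L ^ 2 + order P L) *
        (order P L ^ 2 * (order P L - 1) ^ 2)) := by
      have : 0 < order P L - 1 := by omega
      have : 0 < order P L := by omega
      positivity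
    rw [← h1, Finset.card_pos] at h2
    obtain ⟨⟨a, b, c, d⟩, hx⟩ := h2
    rw [Finset.mem_filter] at hx
    exact ⟨a, b, c, d, hx.2⟩
  have hm2 : 2 ≤ m := one_lt_of_hasOrder (G.gen a b c d hq).1 (G.ord a b c d hq)
  have hab : a ≠ b := ne12 hq
  obtain ⟨s, l, e, k, al, bl, ae, be, se, sl, sk, ak, bk, hkl⟩ := exists_setup hq
  have h1 : m ∣ order P L := G.dvd_line hab al bl ae be se sl sk ak bk hkl
  have h2 : (m - 1) ∣ (order P L - 1) := by
    obtain ⟨x, hx⟩ : ∃ x, x ∈ (pts P l).erase s := by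
      have := card_erase_pts (P := P) sl
      apply Finset.card_pos.1
      have h3 : 0 < order P L := by omega
      convert h3
    rw [Finset.mem_erase, mem_pts] at hx
    exact G.dvd_line2 hab al bl ae be se sl hx.2 hx.1
  have h3 := G.dvd_quads_point a
  have h4 := G.dvd_quads
  have e1 : ∀ n : ℕ, (n ^ 2 + n) * (n ^ 2 * (n - 1) ^ 2) = (n + 1) * n ^ 3 * (n - 1) ^ 2 := by
    intro n; ring
  rw [nQuad, nQuad, e1, e1] at h4
  rw [e1, e1] at h3
  refine ⟨h1, h2, h3, h4, ?_⟩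
  intro q hq hqm h4m
  rcases nt_main hm2 hn h1 h2 h4 hq hqm h4m with h | h | h | h
  · exact Or.inl h
  · exact Or.inr (Or.inl h)
  · refine Or.inr (Or.inr (Or.inr ⟨?_, h⟩))
    intro hqe
    -- `3 ∣ m + 2`, hence `3 ∣ m ^ 2 + m + 1`
    obtain ⟨r, hr⟩ : ∃ r, order P L - m = m * (m - 1) * r := by
      apply exists_eq_mul_right_of_dvd
      apply Nat.Coprime.mul_dvd_of_dvd_of_dvd
      · have : Nat.Coprime (m - 1 + 1) (m - 1) := by simp
        rwa [Nat.sub_add_cancel (by omega : 1 ≤ m)] at this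
      · exact Nat.dvd_sub h1 dvd_rfl
      · have := Nat.dvd_sub h2 (dvd_refl (m - 1))
        have hle : m ≤ order P L := Nat.le_of_dvd (by omega) h1
        have e : order P L - 1 - (m - 1) = order P L - m := by omega
        rwa [e] at this
    rw [hr] at h
    have h6 : m * (m - 1) * (3 * r) = m * (m - 1) * (m + 2) := by rw [← h]; ring
    have h7 : 0 < m * (m - 1) := Nat.mul_pos (by omega) (by omega)
    have h8 : 3 * r = m + 2 := Nat.eq_of_mul_eq_mul_left h7 h6
    have h9 : 3 ∣ m ^ 2 + m + 1 := by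
      have e : m = 3 * (r - 1) + 1 := by omega
      rw [e]
      exact ⟨3 * (r - 1) ^ 2 + 3 * (r - 1) + 1, by ring⟩
    have h10 := (Nat.prime_dvd_prime_iff_eq Nat.prime_three (hqe ▸ hq)).1 h9
    nlinarith
  · exact Or.inr (Or.inr (Or.inl h))

end Pool.Agent.Results.MP_994e17_co.SubplaneOrders
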